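import Pool.Agent.PSV.StmtsS
import Pool.Agent.Helper20_MTD.Trg

/-! Squad PSV, module TRA: the translate satisfies a system with integral coefficients. -/

set_option autoImplicit false

namespace Pool.Agent.PSV.H89

open Matrix PowerSeries Pool.Agent.MT100 Pool.Agent.MT100.H27 Pool.Agent.MT100.H34
  Pool.Agent.MT100D Pool.Agent.MT100D.H20

noncomputable section

theorem zp_hmg {R : Polynomial ℚ} {V : PowerSeries ℚ} (κ D : ℕ)
    (hR : R = 1 - Polynomial.C (κ : ℚ) * Polynomial.X)
    (hM : X * V * (R : PowerSeries ℚ) = X) (p : Polynomial ℤ) (hp : p.natDegree ≤ D) :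
    zp (hmg κ D p) = (R : PowerSeries ℚ) ^ D * sv V (zp p) := by
  have h0 : zq (hmg κ D p) = ∑ j ∈ Finset.range (D + 1),
      Polynomial.C ((zq p).coeff j) * Polynomial.X ^ j * R ^ (D - j) := by
    unfold zq hmg
    rw [Polynomial.map_sum]
    refine Finset.sum_congr rfl fun j _ => ?_
    rw [hR, Polynomial.map_mul, Polynomial.map_mul, Polynomial.map_pow, Polynomial.map_pow,
      Polynomial.map_sub, Polynomial.map_one, Polynomial.map_mul, Polynomial.map_C,
      Polynomial.map_C, Polynomial.map_X, Polynomial.coeff_map]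
    simp
  have hd : (zq p).natDegree ≤ D := by
    unfold zq
    exact (Polynomial.natDegree_map_le).trans hp
  have h1 : (zp p : PowerSeries ℚ) = ∑ j ∈ Finset.range (D + 1),
      C ((zq p).coeff j) * X ^ j := by
    unfold zp
    conv_lhs => rw [(zq p).as_sum_range_C_mul_X_pow' (Nat.lt_succ_of_le hd)]
    rw [← Polynomial.coeToPowerSeries.ringHom_apply, map_sum]
    refine Finset.sum_congr rfl fun j _ => ?_
    rw [Polynomial.coeToPowerSeries.ringHom_apply, Polynomial.coe_mul, Polynomial.coe_C,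
      Polynomial.coe_pow, Polynomial.coe_X]
  have h3 : zp (hmg κ D p) = ((∑ j ∈ Finset.range (D + 1),
      Polynomial.C ((zq p).coeff j) * Polynomial.X ^ j * R ^ (D - j) : Polynomial ℚ) :
      PowerSeries ℚ) := by
    unfold zp
    rw [h0]
  rw [h3, h1, map_sum, Finset.mul_sum, ← Polynomial.coeToPowerSeries.ringHom_apply, map_sum]
  refine Finset.sum_congr rfl fun j hj => ?_
  have hj' : j ≤ D := Nat.lt_succ_iff.mp (Finset.mem_range.mp hj)
  rw [Polynomial.coeToPowerSeries.ringHom_apply, Polynomial.coe_mul, Polynomial.coe_mul,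
    Polynomial.coe_C, Polynomial.coe_pow, Polynomial.coe_pow, Polynomial.coe_X, map_mul, sv_C,
    map_pow, sv_X]
  have h2 : (R : PowerSeries ℚ) ^ D = (R : PowerSeries ℚ) ^ (D - j) * (R : PowerSeries ℚ) ^ j := by
    rw [← pow_add, Nat.sub_add_cancel hj']
  have h4 : (X : PowerSeries ℚ) ^ j = (X * V) ^ j * (R : PowerSeries ℚ) ^ j := by
    rw [← mul_pow, hM]
  rw [h2, h4]
  ring

/-- TRA -/
theorem tra : TraStmt := by
  intro d _ _ H K N δ q B hG κ D hDq hDB
  obtain ⟨hinv, hnil, hcom, hq0, hode, hgH, hgK⟩ := hG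
  obtain ⟨R, hR⟩ : ∃ R : Polynomial ℚ, R = 1 - Polynomial.C (κ : ℚ) * Polynomial.X := ⟨_, rfl⟩
  have hrvp : rvp (Polynomial.X : Polynomial ℚ) κ = R := by
    unfold rvp
    rw [Polynomial.natDegree_X, Finset.sum_range_succ, Finset.sum_range_one, hR,
      Polynomial.coeff_X_zero, Polynomial.coeff_X_one]
    simp
  have hR0 : R.coeff 0 ≠ 0 := by
    rw [hR]
    simp
  have hRc : PowerSeries.constantCoeff (R : PowerSeries ℚ) ≠ 0 := by
    rw [← coeff_zero_eq_constantCoeff_apply, Polynomial.coeff_coe]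
    exact hR0
  obtain ⟨V, hV⟩ : ∃ V, V = (R : PowerSeries ℚ)⁻¹ := ⟨_, rfl⟩
  have hRi : (R : PowerSeries ℚ) * (R : PowerSeries ℚ)⁻¹ = 1 := PowerSeries.mul_inv_cancel _ hRc
  have hRne : (R : PowerSeries ℚ) ≠ 0 := by
    intro h
    rw [h, map_zero] at hRc
    exact hRc rfl
  have hVne : V ≠ 0 := by
    rw [hV]
    intro h
    rw [h, mul_zero] at hRi
    exact zero_ne_one hRi
  have hmob : mobp (Polynomial.X : Polynomial ℚ) κ = X * V := by
    unfold mobp
    rw [hrvp, hV, Polynomial.natDegree_X, pow_one]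
  have hM : X * V * (R : PowerSeries ℚ) = X ^ (0 + 1) := by
    rw [hV, zero_add, pow_one]
    linear_combination X * hRi
  obtain ⟨a, b, ha, hb, hgeo⟩ := geo_inv R hR0
  have hgeoV : Geo a b V := by
    rw [hV]
    exact hgeo
  have hsv : ∀ {f : PowerSeries ℚ}, GType f → GType (sv V f) := fun hf =>
    gtype_sv ha hb hgeoV hf
  -- the logarithm
  obtain ⟨l, hl⟩ : ∃ l, l = lgp (Polynomial.X : Polynomial ℚ) κ := ⟨_, rfl⟩
  have hdR : Polynomial.derivative R = -Polynomial.C (κ : ℚ) := by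
    rw [hR]
    simp
  have hl' : l = PowerSeries.mk fun k => if k = 0 then 0 else
      coeff (k - 1) (-((Polynomial.derivative R : Polynomial ℚ) : PowerSeries ℚ) *
        (R : PowerSeries ℚ)⁻¹) / (k : ℚ) := by
    rw [hl, ← hrvp]
    rfl
  have hlg : GType l := by
    rw [hl']
    exact gtype_prim (Helper5_MT100.gmul (Helper5_MT100.gneg (Helper5_MT100.gpoly _))
      (gtype_geo ha hb hgeo))
  have hdl : dv l * (R : PowerSeries ℚ) = C (κ : ℚ) := by
    rw [hl', dv_prim, hdR, Polynomial.coe_neg, Polynomial.coe_C]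
    linear_combination (C (κ : ℚ)) * hRi
  obtain ⟨Dg, hDg⟩ : ∃ Dg : Matrix d d (PowerSeries ℚ), Dg = diagonal fun i => bn κ (-δ i) :=
    ⟨_, rfl⟩
  obtain ⟨Di, hDi⟩ : ∃ Di : Matrix d d (PowerSeries ℚ), Di = diagonal fun i => bn κ (δ i) :=
    ⟨_, rfl⟩
  -- the pullback
  have hT : TrD H N δ κ = H.map (sv V) * eN N l * Dg := by
    unfold TrD TrG
    rw [← hl, ← hDg]
    congr 2
    refine Matrix.ext fun i j => ?_
    rw [Matrix.map_apply, Matrix.map_apply, sv_apply, hmob]
  rw [hT]
  have hDD : Dg * Di = 1 := by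
    rw [hDg, hDi, diagonal_mul_diagonal, ← diagonal_one]
    congr 1
    funext i
    have h := bn_mul_neg κ (-δ i)
    rwa [neg_neg] at h
  have hdiag : ∀ ε : d → ℚ, ∀ i j, GType ((diagonal fun i => bn κ (ε i) :
      Matrix d d (PowerSeries ℚ)) i j) := by
    intro ε i j
    rw [diagonal_apply]
    split_ifs
    · exact gtype_bn κ _
    · have h0 := Helper5_MT100.gconst 0
      rwa [map_zero] at h0
  have hgD : ∀ i j, GType (Dg i j) := by
    intro i j
    rw [hDg]
    exact hdiag (fun i => -δ i) i j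
  have hgI : ∀ i j, GType (Di i j) := by
    intro i j
    rw [hDi]
    exact hdiag δ i j
  -- the homogenised polynomials
  have hM0 : X * V * (R : PowerSeries ℚ) = X := by
    rw [hM, zero_add, pow_one]
  have hq' : zp (hmg κ D q) = (R : PowerSeries ℚ) ^ D * sv V (zp q) := zp_hmg κ D hR hM0 q hDq
  have hB' : ∀ i j, zp (hmg κ D (B i j)) = (R : PowerSeries ℚ) ^ D * sv V (zp (B i j)) :=
    fun i j => zp_hmg κ D hR hM0 _ (hDB i j)
  have hKK : TrK K N δ κ = Di * (eN N (-l) * K.map (sv V)) := by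
    unfold TrK
    rw [← hl, ← hDi]
    congr 4
    rw [hV]
    unfold gV
    rw [hR]
  have hzR : zp (1 - Polynomial.C (κ : ℤ) * Polynomial.X) = (R : PowerSeries ℚ) := by
    unfold zp zq
    rw [hR]
    congr 1
    simp
  have hzm : ∀ a b : Polynomial ℤ, zp (a * b) = zp a * zp b := by
    intro a b
    unfold zp zq
    rw [Polynomial.map_mul, Polynomial.coe_mul]
  rw [hKK]
  refine ⟨?_, hnil, hcom, ?_, ?_, ?_, ?_⟩
  · have h1 : H.map (sv V) * K.map (sv V) = 1 := by
      have h2 : H.map (sv V) * K.map (sv V) = (H * K).map (sv V) :=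
        (Matrix.map_mul (f := sv V)).symm
      rw [h2, hinv]
      exact Matrix.map_one _ (map_zero _) (map_one _)
    calc H.map (sv V) * eN N l * Dg * (Di * (eN N (-l) * K.map (sv V)))
        = H.map (sv V) * eN N l * (Dg * Di) * (eN N (-l) * K.map (sv V)) := by
          simp only [Matrix.mul_assoc]
      _ = H.map (sv V) * (eN N l * eN N (-l)) * K.map (sv V) := by
          rw [hDD, Matrix.mul_one]
          simp only [Matrix.mul_assoc]
      _ = 1 := by rw [eN_mul_neg hnil, Matrix.mul_one, h1]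
  · intro h0
    have h1 : zp ((1 - Polynomial.C (κ : ℤ) * Polynomial.X) * hmg κ D q) = 0 := by
      rw [h0]
      unfold zp zq
      rw [Polynomial.map_zero, Polynomial.coe_zero]
    rw [hzm, hzR, hq'] at h1
    have h2 : (zp q) ≠ 0 := by
      intro h
      unfold zp at h
      rw [Polynomial.coe_eq_zero_iff] at h
      unfold zq at h
      rw [Polynomial.map_eq_zero_iff (Int.castRingHom ℚ).injective_int] at h
      exact hq0 h
    exact mul_ne_zero hRne (mul_ne_zero (pow_ne_zero _ hRne) (sv_ne_zero hVne h2)) h1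
  · -- the differential equation
    obtain ⟨Hs, hHs⟩ : ∃ Hs, Hs = H.map (sv V) := ⟨_, rfl⟩
    obtain ⟨D1, hD1⟩ : ∃ D1, D1 = (H.map dv).map (sv V) := ⟨_, rfl⟩
    obtain ⟨Bs, hBs⟩ : ∃ Bs, Bs = (B.map zp).map (sv V) := ⟨_, rfl⟩
    obtain ⟨qs, hqs⟩ : ∃ qs, qs = sv V (zp q) := ⟨_, rfl⟩
    obtain ⟨NN, hNN⟩ : ∃ NN, NN = NR N (PowerSeries ℚ) := ⟨_, rfl⟩
    obtain ⟨Δ, hΔ⟩ : ∃ Δ : Matrix d d (PowerSeries ℚ), Δ = diagonal fun i => PowerSeries.C (δ i) :=
      ⟨_, rfl⟩
    obtain ⟨E, hE⟩ : ∃ E, E = eN N l := ⟨_, rfl⟩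
    obtain ⟨Rs, hRs⟩ : ∃ Rs : PowerSeries ℚ, Rs = (R : PowerSeries ℚ) := ⟨_, rfl⟩
    obtain ⟨M', hM'⟩ : ∃ M' : PowerSeries ℚ, M' = dv (X * V) := ⟨_, rfl⟩
    have hRs' : Rs = 1 - C (κ : ℚ) * X := by
      rw [hRs, hR, Polynomial.coe_sub, Polynomial.coe_one, Polynomial.coe_mul, Polynomial.coe_C,
        Polynomial.coe_X]
    have hAA : (AA N δ).map (fun x => (PowerSeries.C x : PowerSeries ℚ)) = NN + Δ := by
      rw [AA_map, hNN, hΔ]
    rw [hAA] at hode ⊢
    have e1 : Hs.map dv = M' • D1 := by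
      rw [hHs, hD1, hM']
      refine Matrix.ext fun i j => ?_
      rw [Matrix.map_apply, Matrix.map_apply, Matrix.smul_apply, Matrix.map_apply,
        Matrix.map_apply, dv_sv, smul_eq_mul, mul_comm]
    have hNs : (NN + Δ).map (sv V) = NN + Δ := by
      rw [← hAA]
      refine Matrix.ext fun i j => ?_
      rw [Matrix.map_apply, Matrix.map_apply, sv_C]
    have e2 : (qs * (X * V)) • D1 = Bs * Hs - qs • (Hs * (NN + Δ)) := by
      have h := congrArg (fun M => M.map (sv V)) hode
      have hs : ∀ (c : PowerSeries ℚ) (M : Matrix d d (PowerSeries ℚ)),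
          (c • M).map (sv V) = sv V c • M.map (sv V) := by
        intro c M
        refine Matrix.ext fun i j => ?_
        rw [Matrix.map_apply, Matrix.smul_apply, Matrix.smul_apply, Matrix.map_apply, smul_eq_mul,
          smul_eq_mul, map_mul]
      simp only [hs, Matrix.map_sub _ (map_sub (sv V)), Matrix.map_mul] at h
      rw [map_mul, sv_X, hNs] at h
      rw [hHs, hD1, hBs, hqs]
      exact h
    have hdM : X * M' * Rs = X * V := by
      have h1 := congrArg dv hM
      have h2 : dv (X * V * (R : PowerSeries ℚ)) =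
          X * V * dv (R : PowerSeries ℚ) + (R : PowerSeries ℚ) * dv (X * V) := by
        have := (PowerSeries.derivative ℚ).leibniz (X * V) (R : PowerSeries ℚ)
        simpa only [smul_eq_mul] using this
      have h3 : dv (R : PowerSeries ℚ) = -C (κ : ℚ) := by
        have h4 := PowerSeries.derivative_coe R
        rw [hdR, Polynomial.coe_neg, Polynomial.coe_C] at h4
        exact h4
      have h4 : dv ((X : PowerSeries ℚ) ^ (0 + 1)) = 1 := by
        rw [zero_add, pow_one]
        exact PowerSeries.derivative_X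
      rw [h2, h3, h4, ← hRs, ← hM'] at h1
      rw [← hRs, zero_add, pow_one] at hM
      rw [hRs'] at hM h1 ⊢
      linear_combination X * h1 - hM
    have e3 : E.map dv = dv l • (E * NN) := by
      rw [hE, hNN]
      exact dv_eN hnil l
    have e4 : E * NN = NN * E := by
      rw [hE, hNN]
      exact eN_comm l
    have e5 : NN * Dg = Dg * NN := by
      rw [hNN, hDg]
      exact NR_diag hcom (fun x => bn κ (-x))
    have e6 : NN * Δ = Δ * NN := by
      rw [hNN, hΔ]
      exact NR_diag hcom (fun x => C x)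
    have e7 : Δ * Dg = Dg * Δ := by
      rw [hΔ, hDg, diagonal_mul_diagonal, diagonal_mul_diagonal]
      congr 1
      funext i
      exact mul_comm _ _
    have e8 : E * Δ = Δ * E := by
      rw [hE, hΔ]
      unfold eN
      rw [Finset.sum_mul, Finset.mul_sum]
      refine Finset.sum_congr rfl fun j _ => ?_
      rw [Matrix.smul_mul, Matrix.mul_smul]
      congr 1
      have h1 : (N ^ j).map (fun y : ℤ => (y : PowerSeries ℚ)) = NN ^ j := by
        rw [hNN, NR_pow]
      rw [h1, ← hΔ]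
      have h2 : Commute NN Δ := e6
      exact (h2.pow_left j).eq
    have e9 : (Rs : PowerSeries ℚ) • Dg.map dv = C (κ : ℚ) • (Dg * Δ) := by
      rw [hDg, hΔ, diagonal_mul_diagonal]
      refine Matrix.ext fun i j => ?_
      rw [Matrix.smul_apply, Matrix.smul_apply, Matrix.map_apply, diagonal_apply, diagonal_apply,
        smul_eq_mul, smul_eq_mul]
      split_ifs with h
      · have h0 : C (-(κ : ℚ) * -δ i) = C (κ : ℚ) * C (δ i) := by
          rw [neg_mul_neg, map_mul]
        rw [hRs', bn_ode, h0]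
        ring
      · have h0 : dv (0 : PowerSeries ℚ) = 0 := map_zero (PowerSeries.derivative ℚ)
        rw [h0, mul_zero, mul_zero]
    have hdl' : dv l * Rs = C (κ : ℚ) := by
      rw [hRs]
      exact hdl
    -- the product of the two last factors
    obtain ⟨G, hG⟩ : ∃ G, G = E * Dg := ⟨_, rfl⟩
    have g1 : Rs • G.map dv = C (κ : ℚ) • (G * (NN + Δ)) := by
      have h1 : E * NN * Dg = E * Dg * NN := by
        rw [Matrix.mul_assoc, e5, Matrix.mul_assoc]
      have h2 : Rs • (E * Dg.map dv) = C (κ : ℚ) • (E * (Dg * Δ)) := by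
        rw [← Matrix.mul_smul E Rs (Dg.map dv), e9, Matrix.mul_smul]
      rw [hG, dv_mul, smul_add, e3, Matrix.smul_mul, smul_smul, mul_comm Rs (dv l), hdl', h1,
        h2, ← smul_add, Matrix.mul_add, Matrix.mul_assoc E Dg Δ]
    have g2 : (NN + Δ) * G = G * (NN + Δ) := by
      have h1 : NN * (E * Dg) = E * Dg * NN := by
        rw [← Matrix.mul_assoc, ← e4, Matrix.mul_assoc, e5, Matrix.mul_assoc]
      have h2 : Δ * (E * Dg) = E * Dg * Δ := by
        rw [← Matrix.mul_assoc, ← e8, Matrix.mul_assoc, e7, Matrix.mul_assoc]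
      rw [hG, Matrix.add_mul, Matrix.mul_add, h1, h2]
    have hgoal : ((Rs * (Rs ^ D * qs)) * X) • (Hs * G).map dv =
        (Rs ^ D) • (Bs * (Hs * G)) - (Rs * (Rs ^ D * qs)) • (Hs * G * (NN + Δ)) := by
      have h1 : Bs * (Hs * G) = ((qs * (X * V)) • D1) * G + qs • (Hs * G * (NN + Δ)) := by
        rw [e2, Matrix.sub_mul, Matrix.smul_mul, Matrix.mul_assoc Hs (NN + Δ) G, g2,
          ← Matrix.mul_assoc Hs G (NN + Δ), ← Matrix.mul_assoc Bs Hs G, sub_add_cancel]
      have h2 : Rs • (Hs * G).map dv =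
          (Rs * M') • (D1 * G) + C (κ : ℚ) • (Hs * G * (NN + Δ)) := by
        have h3 : Rs • (Hs * G.map dv) = C (κ : ℚ) • (Hs * (G * (NN + Δ))) := by
          rw [← Matrix.mul_smul Hs Rs (G.map dv), g1, Matrix.mul_smul]
        rw [dv_mul, smul_add, e1, Matrix.smul_mul, smul_smul, h3, ← Matrix.mul_assoc]
      have h3 : ((Rs * (Rs ^ D * qs)) * X) • (Hs * G).map dv =
          (Rs ^ D * qs * X) • (Rs • (Hs * G).map dv) := by
        rw [smul_smul]
        congr 1
        ring
      rw [h3, h2, h1, Matrix.smul_mul, smul_add, smul_add, smul_smul, smul_smul, smul_smul,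
        smul_smul]
      have h4 : Rs ^ D * qs * X * (Rs * M') = Rs ^ D * (qs * (X * V)) := by
        linear_combination (Rs ^ D * qs) * hdM
      have h5 : Rs ^ D * qs * X * C (κ : ℚ) = Rs ^ D * qs - Rs * (Rs ^ D * qs) := by
        linear_combination (Rs ^ D * qs) * hRs'
      rw [h4, h5, sub_smul]
      abel
    have f1 : zp ((1 - Polynomial.C (κ : ℤ) * Polynomial.X) * hmg κ D q) =
        Rs * (Rs ^ D * qs) := by
      rw [hzm, hzR, hq', hRs, hqs]
    have f2 : (B.map (hmg κ D)).map zp = (Rs ^ D) • Bs := by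
      refine Matrix.ext fun i j => ?_
      rw [Matrix.map_apply, Matrix.map_apply, Matrix.smul_apply, smul_eq_mul, hB', hBs, hRs,
        Matrix.map_apply, Matrix.map_apply]
    rw [f1, f2, ← hHs, ← hE, Matrix.mul_assoc Hs E Dg, ← hG, hgoal, Matrix.smul_mul]
  · exact gtype_mmul (gtype_mmul (fun i j => by
      rw [Matrix.map_apply]
      exact hsv (hgH i j)) (gtype_eN N hlg)) hgD
  · exact gtype_mmul hgI (gtype_mmul (gtype_eN N (Helper5_MT100.gneg hlg)) (fun i j => by
      rw [Matrix.map_apply]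
      exact hsv (hgK i j)))

end

end Pool.Agent.PSV.H89
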